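import Pool.Agent.Y113.MT.PStm

/-!
# Relations between constants, logarithms and the values of the hypergeometric functions at `k` points of a window
-/

set_option autoImplicit false
set_option maxHeartbeats 400000

open Matrix PowerSeries Pool.Agent.Y113 Pool.Agent.Y120.GF Pool.Agent.Y120.GH Pool.Agent.Y119.HY Pool.Agent.Y119.HZ
  Pool.Agent.Y118.CM Pool.Agent.Y113.MT

namespace Pool.Agent.Y46.MT

/-- tuples of isometries as points -/
def Spk {n : ℕ} (k : ℕ) {ι : Type} (J : Matrix (Fin n) (Fin n) ℂ) (e : ι → Fin n × Fin n) : Set (Fin k × ι → ℂ) :=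
  {y | ∃ g : Fin k → Matrix (Fin n) (Fin n) ℂ, (∀ j, (g j).transpose * J * g j = J) ∧
    y = fun a => g a.1 (e a.2).1 (e a.2).2}

/-- **irreducibility** of the product of copies of the isometry group -/
theorem spk_irr {n : ℕ} (k : ℕ) {ι : Type} {J : Matrix (Fin n) (Fin n) ℂ} (hJ : J.transpose = -J) (hdet : J.det ≠ 0)
    (e : ι → Fin n × Fin n) : Pool.Agent.Y118.UL.Irr (Spk k J e) := by
  intro P Q h
  by_contra hcon
  push Not at hcon
  obtain ⟨⟨_, ⟨g1, hg1, rfl⟩, h1⟩, ⟨_, ⟨g2, hg2, rfl⟩, h2⟩⟩ := hcon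
  choose W hW1 hW2 hW3 using fun j => isom_inv hdet (hg1 j)
  choose M hM0 hM1 hM using fun j => Pc_all hJ hdet (W j * g2 j) (isom_mul (hW3 j) (hg2 j))
  set N : Fin k → Matrix (Fin n) (Fin n) (Polynomial ℂ) := fun j => (g1 j).map Polynomial.C * M j with hN
  have hNe : ∀ j c, (N j).map (Polynomial.eval c) = g1 j * (M j).map (Polynomial.eval c) := by
    intro j c
    show ((g1 j).map Polynomial.C * M j).map (Polynomial.eval c) = _
    rw [map_mul', map_C_eval]
  have hev : ∀ (R : MvPolynomial (Fin k × ι) ℂ) (c : ℂ),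
      Polynomial.eval c (MvPolynomial.aeval (fun a : Fin k × ι => N a.1 (e a.2).1 (e a.2).2) R) =
      MvPolynomial.eval (fun a : Fin k × ι => (g1 a.1 * (M a.1).map (Polynomial.eval c)) (e a.2).1 (e a.2).2) R := by
    intro R c
    have h3 : (Polynomial.aeval c : Polynomial ℂ →ₐ[ℂ] ℂ).comp
        (MvPolynomial.aeval (fun a : Fin k × ι => N a.1 (e a.2).1 (e a.2).2)) =
        MvPolynomial.aeval (fun a : Fin k × ι => (g1 a.1 * (M a.1).map (Polynomial.eval c)) (e a.2).1 (e a.2).2) := by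
      refine MvPolynomial.algHom_ext fun a => ?_
      rw [AlgHom.comp_apply, MvPolynomial.aeval_X, MvPolynomial.aeval_X, ← hNe]
      rfl
    exact DFunLike.congr_fun h3 R
  set p := MvPolynomial.aeval (fun a : Fin k × ι => N a.1 (e a.2).1 (e a.2).2) P with hp
  set q := MvPolynomial.aeval (fun a : Fin k × ι => N a.1 (e a.2).1 (e a.2).2) Q with hq
  have hp0 : p ≠ 0 := by
    intro h0
    apply h1
    have h3 := hev P 0
    rw [← hp, h0, Polynomial.eval_zero] at h3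
    simp only [hM0, mul_one] at h3
    exact h3.symm
  have hq0 : q ≠ 0 := by
    intro h0
    apply h2
    have h3 := hev Q 1
    rw [← hq, h0, Polynomial.eval_zero] at h3
    simp only [hM1, ← Matrix.mul_assoc, hW1, one_mul] at h3
    exact h3.symm
  obtain ⟨s, hs⟩ := Infinite.exists_notMem_finset (p * q).roots.toFinset
  have h3 : (p * q).eval s ≠ 0 := by
    intro h3
    exact hs (Multiset.mem_toFinset.2 ((Polynomial.mem_roots (mul_ne_zero hp0 hq0)).2 h3))
  rw [Polynomial.eval_mul, hev, hev] at h3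
  exact h3 (h _ ⟨fun j => g1 j * (M j).map (Polynomial.eval s), fun j => isom_mul (hg1 j) (hM j s), rfl⟩)

/-- the holomorphic part is an isometry -/
lemma Hf_form' {n : ℕ} {Q : Polynomial ℚ} (hQ : QD n Q) {t : ℕ} (ht1 : 2 ≤ t) :
    (Hf (Hc n Q) (((1 / (t : ℝ) : ℝ)) : ℂ)).transpose * cm (Jm n Q) * Hf (Hc n Q) (((1 / (t : ℝ) : ℝ)) : ℂ) =
      cm (Jm n Q) := by
  have h1 := Yt_form hQ ht1
  have hN : cm (Am n) ^ n = 0 := Pool.Agent.Y119.HY.Ac_nil
  have hNJ : (cm (Am n)).transpose * cm (Jm n Q) + cm (Jm n Q) * cm (Am n) = 0 := Pool.Agent.Y119.HY.Jc_rel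
  have i2 := E_isom hN hNJ ((Real.log t : ℝ) : ℂ)
  have h3 : Hf (Hc n Q) (((1 / (t : ℝ) : ℝ)) : ℂ) = Yt n Q t * E (cm (Am n)) ((Real.log t : ℝ) : ℂ) := by
    unfold Yt
    have h4 : E (cm (Am n)) (-((Real.log t : ℝ) : ℂ)) * E (cm (Am n)) ((Real.log t : ℝ) : ℂ) = 1 := by
      have := E_mul_neg hN (-((Real.log t : ℝ) : ℂ))
      rwa [neg_neg] at this
    rw [Matrix.mul_assoc, h4, mul_one]
  rw [h3]
  exact isom_mul h1 i2

/-- **KW** -/
theorem kw : S_KW := by
  classical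
  intro n Q hQ hH
  obtain ⟨D', b, hD, hb⟩ := exists_b n Q
  obtain ⟨q0, C, hG⟩ := gsys_Hp hQ hH hb
  have hG' := hG.reindex (ix n)
  have hT : Polynomial.X * T1 D' ≠ 0 := by
    refine mul_ne_zero Polynomial.X_ne_zero (mul_ne_zero (Polynomial.C_ne_zero.2 (by exact_mod_cast hD)) ?_)
    intro h0
    have := congrArg (Polynomial.eval 0) h0
    simp at this
  have hode : ∀ i : Fin (n * n), ps (Polynomial.X * T1 D') * d⁄dX ℚ (hf n Q i) =
      ∑ j, ps (A2 n D' b (ix n i) (ix n j)) * hf n Q j := by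
    intro i
    have h1 := ode_A2 hQ hb (ix n i)
    have h2 : ∑ j : Fin (n * n), ps (A2 n D' b (ix n i) (ix n j)) * hf n Q j =
        ∑ q, ps (A2 n D' b (ix n i) q) * Hp n Q q.1 q.2 :=
      Equiv.sum_comp (ix n) fun q => ps (A2 n D' b (ix n i) q) * Hp n Q q.1 q.2
    exact h1.trans h2.symm
  obtain ⟨G0, hwin⟩ := Pool.Agent.Y118.UL.winG (h := hf n Q) (A := fun a c => A2 n D' b (ix n a) (ix n c)) hT hode hG'
    (qu_hf hQ hH hb)
  refine ⟨G0, fun G hGG p Ω q k d => ?_⟩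
  obtain ⟨Ex, hE⟩ := hwin G hGG p Ω q k 1 d
  refine ⟨Ex + 1, fun H t ht => ?_⟩
  have hpos : 1 ≤ (H + 2) ^ Ex := Nat.one_le_pow _ _ (by omega)
  have ht' : (H + 2) ^ Ex + 1 ≤ t := by
    have h1 : (H + 2) ^ (Ex + 1) = (H + 2) ^ Ex * (H + 2) := pow_succ _ _
    nlinarith
  obtain ⟨hlt, -⟩ := hE H (t - 1) (by omega)
  have hlt2 : ∀ u ≤ H, G * u + 2 ≤ t := by
    intro u hu
    have := hlt u hu
    omega
  obtain ⟨-, hw⟩ := hE H t (by omega)
  refine ⟨hlt2, fun w => ?_⟩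
  obtain ⟨-, S, hS, hmain⟩ := hw w
  refine ⟨S, hS, fun u hu1 hu2 P hPd hP0 g hg μ => ?_⟩
  have hdet := Jc_det hQ
  have ht1 : ∀ j, 2 ≤ t - G * u j := by
    intro j
    have := hlt2 (u j) (hu2 j).2.1
    omega
  have ht2 : ∀ j, (2 : ℝ) ≤ ((t - G * u j : ℕ) : ℝ) := fun j => by exact_mod_cast ht1 j
  have hform : ∀ j, (Hf (Hc n Q) (((1 / ((t - G * u j : ℕ) : ℝ) : ℝ)) : ℂ)).transpose * cm (Jm n Q) *
      Hf (Hc n Q) (((1 / ((t - G * u j : ℕ) : ℝ) : ℝ)) : ℂ) = cm (Jm n Q) := fun j => Hf_form' hQ (ht1 j)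
  choose W hW1 hW2 hW3 using fun j => isom_inv hdet (hform j)
  have hval : (fun a : Fin k × Fin (n * n) => ((ev ((t - G * u a.1 : ℕ) : ℝ) (hf n Q a.2) : ℝ) : ℂ)) =
      fun a => Hf (Hc n Q) (((1 / ((t - G * u a.1 : ℕ) : ℝ) : ℝ)) : ℂ) (ix n a.2).1 (ix n a.2).2 := by
    funext a
    exact ev_Hp _ _ _
  have hm := hmain u hu1 hu2 (Spk k (cm (Jm n Q)) (ix n)) (spk_irr k (Jc_skew hQ) hdet (ix n)) (by
      rintro y ⟨g', hg', rfl⟩ j R hR
      show MvPolynomial.eval₂ ((algebraMap ℚ ℂ).comp (Polynomial.evalRingHom (1 / ((t - G * u j : ℕ) : ℚ))))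
        (fun i => g' j (ix n i).1 (ix n i).2) R = 0
      have h3 := rel_inv hQ (R := R) hR (x := 1 / ((t - G * u j : ℕ) : ℝ))
        (by
          have := ht2 j
          positivity) (by
          have := ht2 j
          rw [div_lt_one (by linarith)]
          linarith)
        (isom_mul (hW3 j) (hg' j))
      rw [← Matrix.mul_assoc, hW1, one_mul, ← spec_eq] at h3
      exact h3) (by
      rw [hval]
      exact ⟨_, hform, rfl⟩) ⊥ inferInstance (by rw [IntermediateField.finrank_bot])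
    (MvPolynomial.rename (Sum.map id fun a : Fin k × Option (Fin n × Fin n) => (a.1, a.2.map (ix n).symm))
      (MvPolynomial.map (algebraMap ℚ (⊥ : IntermediateField ℚ ℂ)) P))
    ((MvPolynomial.totalDegree_rename_le _ _).trans
      ((Finset.sup_mono (MvPolynomial.support_map_subset _ _)).trans hPd)) (by
      rw [MvPolynomial.aeval_rename, MvPolynomial.aeval_map_algebraMap, ← hP0, hval]
      refine congrArg (fun z => MvPolynomial.aeval z P) (funext fun x => ?_)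
      rcases x with x | ⟨j, _ | x⟩
      · rfl
      · rfl
      · show Hf (Hc n Q) (((1 / ((t - G * u j : ℕ) : ℝ) : ℝ)) : ℂ) (ix n ((ix n).symm x)).1 (ix n ((ix n).symm x)).2 = _
        rw [Equiv.apply_symm_apply]
        rfl) (fun a => g a.1 (ix n a.2).1 (ix n a.2).2) ⟨g, hg, rfl⟩ μ
  rw [MvPolynomial.aeval_rename, MvPolynomial.aeval_map_algebraMap] at hm
  rw [← hm]
  refine congrArg (fun z => MvPolynomial.aeval z P) (funext fun x => ?_)
  rcases x with x | ⟨j, _ | x⟩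
  · rfl
  · rfl
  · show _ = g j (ix n ((ix n).symm x)).1 (ix n ((ix n).symm x)).2
    rw [Equiv.apply_symm_apply]
    rfl

end Pool.Agent.Y46.MT
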